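import Pool.Agent.Results.MP_9a65c4_lc.QuasiMinimal
import Pool.Agent.Y471.QMT.Tree

/-!
Continuum many quasi-minimal enumeration degrees above one non-computable continuous functional on
Baire space.
-/

set_option autoImplicit false

namespace Pool.Agent.Results.MP_9a65c4_lc.OneFunctional

open Encodable
open Pool.Agent.Results.MP_9a65c4_lc.QuasiMinimal
open Pool.Agent.H288R3.QM Pool.Agent.Helper446 Pool.Agent.Helper446.RE
  Pool.Agent.Helper446.CB

/-- The set of the codes of the nodes of the bar. -/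
noncomputable def AV (V : Set (List ℕ)) : Set ℕ := encode '' V

theorem mem_AA (V : Set (List ℕ)) {σ : List ℕ} : encode σ ∈ (AV V) ↔ σ ∈ V := by
  constructor
  · rintro ⟨τ, hτ, h⟩
    rwa [← encode_injective h]
  · intro h; exact ⟨σ, h, rfl⟩

theorem not_ce (V : Set (List ℕ)) (hbar : ∀ g : ℕ → ℕ, ∃ k, seg g k ∈ V)
    (hdisj : ∀ τ ∈ V, τ ∉ SS) : ¬ IsComputablePoint enumSpace (AV V) := by
  rintro ⟨p, hp, hA⟩
  have hA' : (AV V) = {k | ∃ n, p n = k + 1} := hA
  have hV : REPred fun σ : List ℕ => σ ∈ V := by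
    have h1 : REPred fun σ : List ℕ => ∃ n, p n = encode σ + 1 := by
      refine RE.exN (p := fun (σ : List ℕ) n => p n = encode σ + 1) (RE.eq ?_ (by fun_prop))
      exact hp.comp Computable.snd
    refine h1.of_eq fun σ => ?_
    rw [← mem_AA V, hA']
    rfl
  obtain ⟨τ, h1, h2⟩ := bar_meets hV hbar
  exact hdisj τ h1 h2

theorem functions_computable (V : Set (List ℕ))
    (hfun : ∀ {Θ : ℕ × (ℕ × List (List ℕ)) → Prop}, REPred Θ → ∀ {f : ℕ → ℕ}, Gives Θ V f → Computable f)
    (f : ℕ → ℕ) (hf : LeT enumSpace baire f (AV V)) : Computable f := by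
  obtain ⟨F, ⟨W, hW, hF⟩, hname⟩ := hf
  let Θ : ℕ × (ℕ × List (List ℕ)) → Prop := fun x => ∃ τ : List ℕ, W (τ, (x.1, x.2.1)) ∧
    ∀ a ∈ τ, a = 0 ∨ ∃ σ ∈ x.2.2, a = encode σ + 1
  have hΘ : REPred Θ := by
    refine RE.ex (p := fun (x : ℕ × (ℕ × List (List ℕ))) (τ : List ℕ) => W (τ, (x.1, x.2.1)) ∧
      ∀ a ∈ τ, a = 0 ∨ ∃ σ ∈ x.2.2, a = encode σ + 1) (RE.and ?_ ?_)
    · exact RE.comp hW (f := fun y : (ℕ × (ℕ × List (List ℕ))) × List ℕ =>
        (y.2, (y.1.1, y.1.2.1))) (by fun_prop)
    · refine RE.all_mem (p := fun (y : (ℕ × (ℕ × List (List ℕ))) × List ℕ) (a : ℕ) =>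
        a = 0 ∨ ∃ σ ∈ y.1.2.2, a = encode σ + 1) ?_ (l := fun y => y.2) (by fun_prop)
      refine RE.or (RE.eq (by fun_prop) (by fun_prop)) ?_
      exact RE.ex_mem (p := fun (z : ((ℕ × (ℕ × List (List ℕ))) × List ℕ) × ℕ) (σ : List ℕ) =>
        z.2 = encode σ + 1) (RE.eq (by fun_prop) (by fun_prop)) (l := fun z => z.1.1.2.2)
        (by fun_prop)
  refine hfun hΘ (f := f) fun n v => ?_
  constructor
  · intro hfn
    obtain ⟨p, hp⟩ := enumSpace.surj (AV V)
    obtain ⟨q, hq, hqf⟩ := hname p hp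
    have hqf' : q = f := hqf
    subst hqf'
    obtain ⟨k, hk⟩ := (hF p q hq n v).1 hfn
    refine ⟨(initSeg p k).filterMap fun a => if a = 0 then none else decode (a - 1), ?_, ?_⟩
    · refine ⟨initSeg p k, hk, fun a ha => ?_⟩
      rcases Nat.eq_zero_or_pos a with h0 | h0
      · exact Or.inl h0
      · right
        have ha' : a - 1 ∈ (AV V) := by
          rw [show (AV V) = {k | ∃ n, p n = k + 1} from hp]
          obtain ⟨i, -, rfl⟩ := List.mem_map.1 ha
          exact ⟨i, by omega⟩
        obtain ⟨σ, hσ, hσ2⟩ := ha'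
        refine ⟨σ, ?_, by omega⟩
        rw [List.mem_filterMap]
        refine ⟨a, ha, ?_⟩
        rw [if_neg (by omega), ← hσ2, encodek]
    · intro τ hτ
      rw [List.mem_filterMap] at hτ
      obtain ⟨a, ha, h2⟩ := hτ
      split_ifs at h2 with h0
      have ha' : a - 1 ∈ (AV V) := by
        rw [show (AV V) = {k | ∃ n, p n = k + 1} from hp]
        obtain ⟨i, -, rfl⟩ := List.mem_map.1 ha
        exact ⟨i, by omega⟩
      obtain ⟨σ, hσ, hσ2⟩ := ha'
      rw [← hσ2, encodek] at h2
      cases h2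
      exact hσ
  · rintro ⟨E, ⟨τ, hτ, hτE⟩, hE⟩
    obtain ⟨p0, hp0⟩ := enumSpace.surj (AV V)
    have hp0' : (AV V) = {k | ∃ n, p0 n = k + 1} := hp0
    let p : ℕ → ℕ := fun i => if h : i < τ.length then τ[i] else p0 (i - τ.length)
    have hp : enumSpace.Name p (AV V) := by
      show (AV V) = {k | ∃ n, p n = k + 1}
      ext k
      constructor
      · intro hk
        rw [hp0'] at hk
        obtain ⟨n, hn⟩ := hk
        refine ⟨n + τ.length, ?_⟩
        simp only [p]
        rw [dif_neg (by omega), Nat.add_sub_cancel]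
        exact hn
      · rintro ⟨n, hn⟩
        simp only [p] at hn
        split_ifs at hn with h
        · rcases hτE _ (List.getElem_mem h) with h1 | ⟨σ, hσ, h1⟩
          · omega
          · have h2 : k = encode σ := by omega
            rw [h2]
            exact (mem_AA V).2 (hE σ hσ)
        · rw [hp0']
          exact ⟨_, hn⟩
    have hseg : initSeg p τ.length = τ := by
      unfold initSeg
      apply List.ext_getElem
      · simp
      · intro i h1 h2
        simp [p, h2]
    obtain ⟨q, hq, hqf⟩ := hname p hp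
    have hqf' : q = f := hqf
    subst hqf'
    exact (hF p q hq n v).2 ⟨τ.length, by rw [hseg]; exact hτ⟩

theorem phi_le (V : Set (List ℕ)) (hbar : ∀ g : ℕ → ℕ, ∃ k, seg g k ∈ V)
    (hdisj : ∀ τ ∈ V, τ ∉ SS) : LeT enumSpace functionals PhiC (AV V) := by
  refine ⟨fun p => Part.some (asc p), ⟨fun x => x.1.length = (QuasiMinimal.sq x.2.1).length ∧
    x.2.2 = av x.1 (QuasiMinimal.sq x.2.1) ((QuasiMinimal.sq x.2.1).length + 1), ?_, ?_⟩, ?_⟩
  · have hsq : Computable fun x : List ℕ × (ℕ × ℕ) => QuasiMinimal.sq x.2.1 := by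
      unfold QuasiMinimal.sq
      fun_prop
    refine RE.and (RE.eq (by fun_prop) (clength hsq)) (RE.eq (by fun_prop) ?_)
    exact av_comp.comp (g := fun x : List ℕ × (ℕ × ℕ) => (x.1, QuasiMinimal.sq x.2.1))
      (Computable.pair (by fun_prop) hsq)
  · intro p q hq n m
    have hq' : q = asc p := Part.mem_some_iff.1 hq
    subst hq'
    constructor
    · intro h
      exact ⟨(QuasiMinimal.sq n).length, seg_length _ _, h.symm⟩
    · rintro ⟨k, h1, h2⟩
      have h1' : (seg p k).length = (QuasiMinimal.sq n).length := h1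
      rw [seg_length] at h1'
      have h2' : m = av (initSeg p k) (QuasiMinimal.sq n) ((QuasiMinimal.sq n).length + 1) := h2
      rw [h2', h1']
      rfl
  · intro p hp
    refine ⟨asc p, Part.mem_some _, ?_⟩
    have hp' : (AV V) = {k | ∃ n, p n = k + 1} := hp
    have hasc : ∀ (g : ℕ → ℕ) (k : ℕ), asc p (encode (initSeg g k)) =
        av (initSeg p k) (initSeg g k) (k + 1) := by
      intro g k
      unfold asc QuasiMinimal.sq
      rw [gd_encode, show (initSeg g k).length = k from seg_length g k]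
    have hval : ∀ (g : ℕ → ℕ) (k : ℕ), asc p (encode (initSeg g k)) ≠ 0 →
        asc p (encode (initSeg g k)) = Phi g + 1 := by
      intro g k h
      rw [hasc] at h ⊢
      obtain ⟨i, hi, h1, h2⟩ := (av_spec _ _ _).2 h
      rw [h2]
      have h3 : (initSeg g k).take i = seg g i := seg_take g (by omega)
      rw [h3] at h1 ⊢
      have h4 : seg g i ∈ V := by
        rw [← mem_AA V, hp']
        obtain ⟨n, -, hn⟩ := List.mem_map.1 h1
        exact ⟨n, hn⟩
      rw [cnt_seg, Phi_eq (hdisj _ h4)]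
    have hex : ∀ g : ℕ → ℕ, ∃ k, asc p (encode (initSeg g k)) ≠ 0 := by
      intro g
      obtain ⟨k, hk⟩ := hbar g
      have h1 : encode (seg g k) ∈ (AV V) := (mem_AA V).2 hk
      rw [hp'] at h1
      obtain ⟨i, hi⟩ := h1
      refine ⟨max k (i + 1), ?_⟩
      rw [hasc, (av_spec _ _ _).1]
      refine ⟨k, by have := le_max_left k (i + 1); omega, ?_⟩
      have h3 : (initSeg g (max k (i + 1))).take k = seg g k := seg_take g (le_max_left _ _)
      rw [h3, ← hi]
      exact List.mem_map.2 ⟨i, List.mem_range.2 (by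
        have := le_max_right k (i + 1); omega), rfl⟩
    intro g
    classical
    refine ⟨Nat.find (hex g), hval g _ (Nat.find_spec (hex g)), fun j hj => ?_⟩
    have := Nat.find_min (hex g) hj
    push Not at this
    exact this


/-- the set determined by an operator and a name -/
def setOf' (p : ℕ → ℕ) (e : ℕ) : Set ℕ :=
  {k | ∃ n j, ∃ s, wst (List ℕ × (ℕ × ℕ)) e s (initSeg p j, (n, k + 1)) = true}

theorem below_mem {A B : Set ℕ} {p : ℕ → ℕ} (hp : enumSpace.Name p A)
    (h : LeT enumSpace enumSpace B A) : ∃ e, setOf' p e = B := by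
  obtain ⟨F, ⟨W, hW, hF⟩, hname⟩ := h
  obtain ⟨q, hq, hqB⟩ := hname p hp
  obtain ⟨e, he⟩ := wst_univ hW
  refine ⟨e, ?_⟩
  rw [show B = {k | ∃ n, q n = k + 1} from hqB]
  ext k
  constructor
  · rintro ⟨n, j, hs⟩
    exact ⟨n, (hF p q hq n (k + 1)).2 ⟨j, (he _).2 hs⟩⟩
  · rintro ⟨n, hn⟩
    obtain ⟨j, hj⟩ := (hF p q hq n (k + 1)).1 hn
    exact ⟨n, j, (he _).1 hj⟩

theorem AV_injective : Function.Injective AV := by
  intro V W h
  exact (Set.image_injective.2 encode_injective) h

/-- **One functional, continuum many sets.** There are a non-computable continuous functional `Φ`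
on Baire space and an injective map `F` from the set of all binary sequences into the sets of
natural numbers such that for every `b`

* the enumeration degree of `F b` is quasi-minimal (with respect to Baire space),
* `Φ ≤_T F b`, so that the enumeration degree of `F b` is not quasi-minimal with respect to the
  space of the continuous functionals on Baire space,

and only countably many of the sets `F b` are enumeration reducible to any given set `A`. -/
theorem result : ∃ (Φ : C(ℕ → ℕ, ℕ)) (F : (ℕ → Bool) → Set ℕ),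
    ¬ IsComputablePoint functionals Φ ∧ Function.Injective F ∧
    (∀ b, QuasiMinimalFor baire (F b) ∧ LeT enumSpace functionals Φ (F b) ∧
      ¬ QuasiMinimalFor functionals (F b)) ∧
    ∀ A : Set ℕ, {b | LeT enumSpace enumSpace (F b) A}.Countable := by
  have hinj : Function.Injective fun b => AV (Pool.Agent.Y471.QMT.V b) :=
    AV_injective.comp Pool.Agent.Y471.QMT.V_injective
  refine ⟨PhiC, fun b => AV (Pool.Agent.Y471.QMT.V b), phi_not_comp, hinj, fun b => ?_, fun A => ?_⟩
  · have hle := phi_le (Pool.Agent.Y471.QMT.V b) (Pool.Agent.Y471.QMT.V_bar b)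
      (Pool.Agent.Y471.QMT.V_disj b)
    refine ⟨⟨not_ce _ (Pool.Agent.Y471.QMT.V_bar b) (Pool.Agent.Y471.QMT.V_disj b),
      fun f hf => ⟨f, functions_computable _
        (fun hΘ => Pool.Agent.Y471.QMT.V_functions b hΘ) f hf, rfl⟩⟩, hle, fun h => ?_⟩
    exact phi_not_comp (h.2 PhiC hle)
  · obtain ⟨p, hp⟩ := enumSpace.surj A
    refine ((Set.countable_range (setOf' p)).preimage_of_injOn
      (f := fun b => AV (Pool.Agent.Y471.QMT.V b)) hinj.injOn).mono ?_
    intro b hb
    obtain ⟨e, he⟩ := below_mem hp hb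
    exact ⟨e, he⟩

end Pool.Agent.Results.MP_9a65c4_lc.OneFunctional
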